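import Pool.Agent.Helper81.EMC.Goals

set_option autoImplicit false

namespace Helper47.EMC

open Finset Helper81.EMC

/-- total mass of the product measure -/
theorem total_mass (k m : ℕ) (p : Fin m → ℝ) (h1 : ∑ i, p i = 1) :
    ∑ f : Fin k → Fin m, ∏ j, p (f j) = 1 := by
  have h := Finset.prod_univ_sum (fun _ : Fin k => (Finset.univ : Finset (Fin m)))
    (fun _ i => p i)
  rw [Fintype.piFinset_univ] at h
  rw [← h]
  simp [h1]

/-- complement form -/
theorem compl_mass (k m : ℕ) (p w : Fin m → ℝ) (h1 : ∑ i, p i = 1) :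
    ∑ f : Fin k → Fin m, (∏ j, p (f j)) * (if 1 ≤ ∑ j, w (f j) then 1 else 0) =
      1 - ∑ f : Fin k → Fin m, (∏ j, p (f j)) * (if 1 ≤ ∑ j, w (f j) then 0 else 1) := by
  have h := total_mass k m p h1
  rw [eq_sub_iff_add_eq, ← h, ← Finset.sum_add_distrib]
  refine Finset.sum_congr (by rfl) fun f _ => ?_
  by_cases hc : 1 ≤ ∑ j, w (f j)
  · rw [h]
    rw [if_pos hc, if_pos hc]; ring
  · rw [h]
    rw [if_neg hc, if_neg hc]; ring

theorem mono : stmtMono := by
  intro k a x hxa ha1 hI m p w hp hp1 hw hw1 hmean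
  have hx1 : x < 1 := lt_of_le_of_lt hxa ha1
  have hx0 : 0 < 1 - x := by linarith
  have ha0 : 0 < 1 - a := by linarith
  set g : ℝ := (1 - a) / (1 - x) with hg
  have hg0 : 0 < g := div_pos ha0 hx0
  have hg1 : g ≤ 1 := by
    rw [hg, div_le_one hx0]; linarith
  have hgx : g * (1 - x) = 1 - a := by
    rw [hg]; field_simp
  set p' : Fin (m + 1) → ℝ := Fin.cons (1 - g) (fun i => g * p i) with hp'
  set w' : Fin (m + 1) → ℝ := Fin.cons 1 w with hw'
  have hp'0 : p' 0 = 1 - g := rfl
  have hp's : ∀ i : Fin m, p' i.succ = g * p i := fun i => rfl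
  have hw'0 : w' 0 = 1 := rfl
  have hw's : ∀ i : Fin m, w' i.succ = w i := fun i => rfl
  have hp'nn : ∀ i, 0 ≤ p' i := by
    intro i
    refine Fin.cases ?_ (fun i => ?_) i
    · rw [hp'0]; linarith
    · rw [hp's]; exact mul_nonneg hg0.le (hp i)
  have hw'nn : ∀ i, 0 ≤ w' i := by
    intro i
    refine Fin.cases ?_ (fun i => ?_) i
    · rw [hw'0]; norm_num
    · rw [hw's]; exact hw i
  have hw'1 : ∀ i, w' i ≤ 1 := by
    intro i
    refine Fin.cases ?_ (fun i => ?_) i
    · rw [hw'0]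
    · rw [hw's]; exact hw1 i
  have hp'1 : ∑ i, p' i = 1 := by
    rw [Fin.sum_univ_succ, hp'0]
    simp only [hp's]
    rw [← Finset.mul_sum, hp1]; ring
  have hmean' : ∑ i, p' i * w' i ≤ a := by
    rw [Fin.sum_univ_succ, hp'0, hw'0]
    simp only [hp's, hw's]
    have : ∑ i, g * p i * w i = g * ∑ i, p i * w i := by
      rw [Finset.mul_sum]; exact Finset.sum_congr rfl fun i _ => by ring
    rw [this]
    have h2 : g * ∑ i, p i * w i ≤ g * x := mul_le_mul_of_nonneg_left hmean hg0.le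
    nlinarith [hgx, h2]
  have hmain := hI (m + 1) p' w' hp'nn hp'1 hw'nn hw'1 hmean'
  rw [compl_mass k (m + 1) p' w' hp'1] at hmain
  rw [compl_mass k m p w hp1]
  have hkey : ∑ f : Fin k → Fin (m + 1), (∏ j, p' (f j)) * (if 1 ≤ ∑ j, w' (f j) then 0 else 1) =
      g ^ k * ∑ f : Fin k → Fin m, (∏ j, p (f j)) * (if 1 ≤ ∑ j, w (f j) then 0 else 1) := by
    rw [Finset.mul_sum]
    symm
    refine Fintype.sum_of_injective (fun (f : Fin k → Fin m) (j : Fin k) => (f j).succ) ?_ _ _ ?_ ?_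
    · intro f f' hff
      funext j
      exact Fin.succ_injective _ (congrFun hff j)
    · intro f hf
      have hex : ∃ j, f j = 0 := by
        by_contra hne
        push Not at hne
        apply hf
        refine ⟨fun j => (f j).pred (hne j), ?_⟩
        funext j
        exact Fin.succ_pred _ _
      obtain ⟨j, hj⟩ := hex
      have hs : 1 ≤ ∑ j, w' (f j) := by
        calc (1 : ℝ) = w' (f j) := by rw [hj, hw'0]
          _ ≤ ∑ j, w' (f j) :=
            Finset.single_le_sum (f := fun j => w' (f j)) (fun i _ => hw'nn _) (Finset.mem_univ j)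
      rw [if_pos hs, mul_zero]
    · intro f
      simp only [hp's, hw's]
      rw [Finset.prod_mul_distrib, Finset.prod_const, Finset.card_univ, Fintype.card_fin]
      ring
  rw [hkey] at hmain
  have h3 : (1 - a) ^ k = g ^ k * (1 - x) ^ k := by
    rw [← mul_pow, hgx]
  have h4 : g ^ k * (1 - x) ^ k ≤
      g ^ k * ∑ f : Fin k → Fin m, (∏ j, p (f j)) * (if 1 ≤ ∑ j, w (f j) then 0 else 1) := by
    rw [← h3]; linarith
  have h5 := le_of_mul_le_mul_left h4 (pow_pos hg0 k)
  linarith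

end Helper47.EMC
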