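import Pool.Agent.Helper81.EMC.Goals

set_option autoImplicit false

namespace Helper47.EMC

open Finset Helper81.EMC

theorem min_le_frac (v t s : ℝ) (h0 : 0 ≤ t) (hts : t ≤ s) (hs : s < 1) :
    min v ((v - s) / (1 - s)) ≤ (v - t) / (1 - t) := by
  have h1 : 0 < 1 - s := by linarith
  have h2 : 0 < 1 - t := by linarith
  rcases le_total v 1 with hv | hv
  · refine le_trans (min_le_right _ _) ?_
    rw [div_le_div_iff₀ h1 h2]
    nlinarith [mul_nonneg (sub_nonneg.2 hv) (sub_nonneg.2 hts)]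
  · refine le_trans (min_le_left _ _) ?_
    rw [le_div_iff₀ h2]
    nlinarith [mul_nonneg (sub_nonneg.2 hv) h0]

theorem qq_nonneg (c κ j x τ : ℝ) : 0 ≤ qq c κ j x τ := le_max_left _ _

theorem qq_le (c κ j x τ N D : ℝ) (hj : 0 ≤ j) (hN : 0 < N) (hjN : j < N) (hκ : 1 / N ≤ κ)
    (hjκ : j * κ < 1) (hD0 : 0 ≤ D)
    (hD : N * ((1 - (1 + j * τ) / x) / c) - j ≤ D) :
    qq c κ j x τ ≤ D / (N - j) := by
  have hNj : 0 < N - j := by linarith
  unfold qq
  refine max_le (div_nonneg hD0 hNj.le) ?_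
  have ht : j / N ≤ j * κ := by
    calc j / N = j * (1 / N) := by ring
      _ ≤ j * κ := mul_le_mul_of_nonneg_left hκ hj
  refine le_trans (min_le_frac _ (j / N) (j * κ) (div_nonneg hj hN.le) ht hjκ) ?_
  have h1 : 0 < 1 - j / N := by
    rw [sub_pos, div_lt_one hN]; exact hjN
  rw [div_le_div_iff₀ h1 hNj]
  set v := (1 - (1 + j * τ) / x) / c
  have e1 : (v - j / N) * (N - j) = (N * v - j) * (1 - j / N) := by
    field_simp
  rw [e1]
  exact mul_le_mul_of_nonneg_right hD h1.le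

theorem red : stmtRed := by
  intro n c κ f hn hc hc1 hκ hκ2 hf hfF hH U b B hb hbU hB hsum hBb
  set N : ℝ := (n : ℝ) with hNdef
  have hN4 : (4 : ℝ) ≤ N := by rw [hNdef]; exact_mod_cast hn
  have hN0 : 0 < N := by linarith
  have hA : U + b + B = 1 + N / c := by
    rw [hsum, one_div_one_div]
  set A : ℝ := 1 + N / c with hAdef
  have hNc : N < N / c := by
    rw [lt_div_iff₀ hc]; nlinarith
  have hcA : c * (A - 1) = N := by
    rw [hAdef]; field_simp; ring
  have hA1 : 0 < A - 1 := by rw [hAdef]; linarith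
  have hU1 : 0 < U - 1 := by
    have h1 : A ≤ (N + 1) * U := by nlinarith
    have h2 : N + 1 < A := by rw [hAdef]; linarith
    have h3 : (N + 1) * 1 < (N + 1) * U := by linarith
    have := lt_of_mul_lt_mul_left h3 (by linarith : (0:ℝ) ≤ N + 1)
    linarith
  set x : ℝ := (A - 1) / (U - 1) with hx
  set τ : ℝ := (b - 1) / (U - 1) with hτ
  have hxU : x * (U - 1) = A - 1 := by rw [hx]; field_simp
  have hτU : τ * (U - 1) = b - 1 := by rw [hτ]; field_simp
  have hx1 : 1 ≤ x := by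
    rw [hx, le_div_iff₀ hU1]; linarith
  have hx0 : 0 < x := by linarith
  have hτ1 : τ ≤ 1 := by
    rw [hτ, div_le_one hU1]; linarith
  have hτx : τ ≤ x - 1 := by
    have : τ * (U - 1) ≤ (x - 1) * (U - 1) := by
      rw [hτU, sub_mul, hxU]; linarith
    exact le_of_mul_le_mul_right this hU1
  have hτlow : -(κ * max (1 - (1 - c) * x) 0) ≤ τ := by
    have h1 : (1 / N) * ((1 - c) * x - 1) ≤ τ := by
      have : (1 / N) * ((1 - c) * x - 1) * (U - 1) ≤ τ * (U - 1) := by
        rw [hτU]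
        have e : (1 / N) * ((1 - c) * x - 1) * (U - 1) =
            (1 / N) * ((A - 1) - c * (A - 1) - (U - 1)) := by
          rw [← hxU]; ring
        rw [e, hcA, one_div, inv_mul_le_iff₀ hN0]
        nlinarith
      exact le_of_mul_le_mul_right this hU1
    have h2 : (1 / N) * (1 - (1 - c) * x) ≤ κ * max (1 - (1 - c) * x) 0 := by
      calc (1 / N) * (1 - (1 - c) * x) ≤ (1 / N) * max (1 - (1 - c) * x) 0 :=
            mul_le_mul_of_nonneg_left (le_max_left _ _) (by positivity)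
        _ ≤ κ * max (1 - (1 - c) * x) 0 :=
            mul_le_mul_of_nonneg_right hκ (le_max_right _ _)
    nlinarith
  have hmain := hH x τ hx1 hτ1 hτx hτlow
  have e1 : (U - b) / (U - 1) = 1 - τ := by
    rw [div_eq_iff hU1.ne', sub_mul, hτU]; ring
  have e2 : (N - 1 - B) / (U - 1) = 1 - (1 - c) * x + τ := by
    rw [div_eq_iff hU1.ne']
    have : (1 - (1 - c) * x + τ) * (U - 1) = (U - 1) - (1 - c) * (A - 1) + (b - 1) := by
      rw [← hxU, ← hτU]; ring
    rw [this]
    have : (1 - c) * (A - 1) = (A - 1) - N := by rw [← hcA]; ring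
    rw [this]; linarith
  have e3 : (1 / (1 - 1 / A)) = 1 + c / N := by
    have hA0 : A ≠ 0 := by linarith
    have h1 : 1 - 1 / A = (A - 1) / A := by field_simp
    rw [h1, one_div_div, ← hcA]
    field_simp
    ring
  rw [e1, e2, e3]
  refine lt_of_lt_of_le hmain ?_
  have hv1 : N * ((1 - (1 + 1 * τ) / x) / c) - 1 = B := by
    have : N * ((1 - (1 + 1 * τ) / x) / c) = (A - 1) - (1 + τ) * (U - 1) := by
      rw [← hcA, ← hxU]; field_simp
    rw [this, add_mul, hτU]; linarith
  have hv2 : N * ((1 - (1 + 2 * τ) / x) / c) - 2 = B - b := by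
    have : N * ((1 - (1 + 2 * τ) / x) / c) = (A - 1) - (1 + 2 * τ) * (U - 1) := by
      rw [← hcA, ← hxU]; field_simp
    rw [this, add_mul, mul_assoc, hτU]; linarith
  have hq1 : qq c κ 1 x τ ≤ B / (N - 1) :=
    qq_le c κ 1 x τ N B (by norm_num) hN0 (by linarith) hκ (by linarith) hB hv1.le
  have hq2 : qq c κ 2 x τ ≤ max (B - b) 0 / (N - 2) :=
    qq_le c κ 2 x τ N (max (B - b) 0) (by norm_num) hN0 (by linarith) hκ (by linarith)
      (le_max_right _ _) (hv2.le.trans (le_max_left _ _))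
  have hq1' := qq_nonneg c κ 1 x τ
  have hq2' := qq_nonneg c κ 2 x τ
  have hN1 : 0 < N - 1 := by linarith
  have hN2 : 0 < N - 2 := by linarith
  have hcoef : f / (c ^ 2 * x ^ 2) ≤
      ((1 + c / N) ^ (n + 1) - 1) * (U - 1) ^ 2 / ((N + 1) * N) := by
    have e : ((1 + c / N) ^ (n + 1) - 1) * (U - 1) ^ 2 / ((N + 1) * N) =
        (N / (N + 1) * ((1 + c / N) ^ (n + 1) - 1)) / (c ^ 2 * x ^ 2) := by
      have hU : (U - 1) = N / (c * x) := by
        rw [eq_div_iff (by positivity), ← hcA, ← hxU]; ring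
      rw [hU]
      have : N + 1 ≠ 0 := by linarith
      field_simp
    rw [e]
    exact div_le_div_of_nonneg_right hfF (by positivity)
  have hbr : 1 + 2 * qq c κ 1 x τ + 3 * (qq c κ 1 x τ * qq c κ 2 x τ) ≤
      1 + 2 * B / (N - 1) + 3 * B * max (B - b) 0 / ((N - 1) * (N - 2)) := by
    have h1 : 2 * B / (N - 1) = 2 * (B / (N - 1)) := by ring
    have h2 : 3 * B * max (B - b) 0 / ((N - 1) * (N - 2)) =
        3 * (B / (N - 1) * (max (B - b) 0 / (N - 2))) := by
      field_simp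
    rw [h1, h2]
    have h3 : qq c κ 1 x τ * qq c κ 2 x τ ≤ B / (N - 1) * (max (B - b) 0 / (N - 2)) :=
      mul_le_mul hq1 hq2 hq2' (div_nonneg hB hN1.le)
    linarith
  exact mul_le_mul hcoef hbr (by positivity) (le_trans (by positivity) hcoef)

end Helper47.EMC
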